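import Pool.Agent.H88.CL.Basic

/-!
SEL: selection of a cheap configuration
-/

set_option autoImplicit false

namespace Pool.Agent.H36.CL

open Pool.Agent.H88.CL Set Function Topology Metric Filter

theorem pf_SEL : T_SEL := by
  intro d P b Y n c0 d0 hd0 hex hlow
  obtain ⟨Cs, hCs⟩ : ∃ Cs : Set ℝ, Cs = {r | ∃ i j : ℕ, ∃ u u' : E d, i < j ∧ j ≤ n ∧
      u - Y i ∈ Lat d ∧ u' - Y j ∈ Lat d ∧
      r = ‖P.symm (u' - u)‖ + 1 / 16 * ‖P.symm (u - b)‖} := ⟨_, rfl⟩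
  have hbdd : BddBelow Cs := by
    refine ⟨0, ?_⟩
    intro r hr
    rw [hCs] at hr
    obtain ⟨i, j, u, u', -, -, -, -, rfl⟩ := hr
    positivity
  have hmin : ∀ (i j : ℕ) (u u' : E d), i < j → j ≤ n → u - Y i ∈ Lat d → u' - Y j ∈ Lat d →
      sInf Cs ≤ ‖P.symm (u' - u)‖ + 1 / 16 * ‖P.symm (u - b)‖ := by
    intro i j u u' h1 h2 h3 h4
    refine csInf_le hbdd ?_
    rw [hCs]
    exact ⟨i, j, u, u', h1, h2, h3, h4, rfl⟩
  obtain ⟨i, j, u, u', hij, hjn, hu, hu', hc, hcs⟩ : ∃ i j : ℕ, ∃ u u' : E d, i < j ∧ j ≤ n ∧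
      u - Y i ∈ Lat d ∧ u' - Y j ∈ Lat d ∧
      ‖P.symm (u' - u)‖ + 1 / 16 * ‖P.symm (u - b)‖ ≤ c0 ∧
      ‖P.symm (u' - u)‖ + 1 / 16 * ‖P.symm (u - b)‖ < sInf Cs + d0 / 100 := by
    obtain ⟨i, j, u, u', h1, h2, h3, h4, h5⟩ := hex
    rcases lt_or_ge (‖P.symm (u' - u)‖ + 1 / 16 * ‖P.symm (u - b)‖) (sInf Cs + d0 / 100) with h | h
    · exact ⟨i, j, u, u', h1, h2, h3, h4, h5, h⟩
    · have hne : Cs.Nonempty := by
        refine ⟨‖P.symm (u' - u)‖ + 1 / 16 * ‖P.symm (u - b)‖, ?_⟩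
        rw [hCs]
        exact ⟨i, j, u, u', h1, h2, h3, h4, rfl⟩
      obtain ⟨r, hr, hr2⟩ := exists_lt_of_csInf_lt hne
        (show sInf Cs < sInf Cs + d0 / 100 by linarith)
      rw [hCs] at hr
      obtain ⟨i', j', v, v', g1, g2, g3, g4, rfl⟩ := hr
      exact ⟨i', j', v, v', g1, g2, g3, g4, by linarith, hr2⟩
  refine ⟨i, j, u, u', hij, hjn, hu, hu', hc, ?_⟩
  have hD := hlow i j u u' hij hjn hu hu' hc
  intro s his hsj y hy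
  by_contra hcon
  rw [not_lt] at hcon
  obtain ⟨w, hw⟩ : ∃ w : E d, w = P.symm (u' - u) := ⟨_, rfl⟩
  obtain ⟨a, ha⟩ : ∃ a : E d, a = P.symm (y - u) := ⟨_, rfl⟩
  have hwa : P.symm (u' - y) = w - a := by
    rw [hw, ha, ← map_sub]
    congr 1
    abel
  have hyb : P.symm (y - b) = a + P.symm (u - b) := by
    rw [ha, ← map_add]
    congr 1
    abel
  have hc1 := hmin i s u y his (by omega) hu hy
  have hc2 := hmin s j y u' hsj hjn hy hu'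
  rw [hwa, hyb] at hc2
  rw [← ha] at hc1 hcon
  rw [← hw] at hcon hcs hD
  have hp := parallelogram_law_with_norm ℝ (a - (1 / 2 : ℝ) • w) ((1 / 2 : ℝ) • w)
  have e1 : a - (1 / 2 : ℝ) • w + (1 / 2 : ℝ) • w = a := by abel
  have e2 : ‖a - (1 / 2 : ℝ) • w - (1 / 2 : ℝ) • w‖ = ‖w - a‖ := by
    rw [norm_sub_rev w a]
    congr 1
    rw [sub_sub, ← add_smul]
    norm_num
  have e3 : ‖(1 / 2 : ℝ) • w‖ = 1 / 2 * ‖w‖ := by
    rw [norm_smul, Real.norm_eq_abs, abs_of_pos (by norm_num)]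
  rw [e1, e2, e3] at hp
  have hn1 := norm_add_le a (P.symm (u - b))
  have hn2 : ‖a‖ ≤ ‖a - (1 / 2 : ℝ) • w‖ + 1 / 2 * ‖w‖ := by
    have := norm_add_le (a - (1 / 2 : ℝ) • w) ((1 / 2 : ℝ) • w)
    rw [e1, e3] at this
    exact this
  have hm0 := norm_nonneg (a - (1 / 2 : ℝ) • w)
  have ha0 := norm_nonneg a
  have hwa0 := norm_nonneg (w - a)
  have hw0 : 0 < ‖w‖ := lt_of_lt_of_le hd0 hD
  have hm2 : ‖a - (1 / 2 : ℝ) • w‖ * ‖a - (1 / 2 : ℝ) • w‖ ≤ (3 / 4 * ‖w‖) * (3 / 4 * ‖w‖) :=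
    mul_le_mul hcon hcon hm0 (by positivity)
  have hsum : ‖a‖ * ‖a‖ + ‖w - a‖ * ‖w - a‖ ≤ 13 / 8 * (‖w‖ * ‖w‖) := by nlinarith
  rcases le_total ‖a‖ ‖w - a‖ with h | h
  · have h1 : ‖a‖ ≤ 902 / 1000 * ‖w‖ := by
      by_contra hcon2
      rw [not_le] at hcon2
      have g1 : (902 / 1000 * ‖w‖) * (902 / 1000 * ‖w‖) < ‖a‖ * ‖a‖ :=
        mul_lt_mul'' hcon2 hcon2 (by positivity) (by positivity)
      have g2 : ‖a‖ * ‖a‖ ≤ ‖w - a‖ * ‖w - a‖ := mul_le_mul h h ha0 hwa0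
      have g3 : 0 < ‖w‖ * ‖w‖ := by positivity
      nlinarith
    linarith
  · have h1 : ‖w - a‖ ≤ 902 / 1000 * ‖w‖ := by
      by_contra hcon2
      rw [not_le] at hcon2
      have g1 : (902 / 1000 * ‖w‖) * (902 / 1000 * ‖w‖) < ‖w - a‖ * ‖w - a‖ :=
        mul_lt_mul'' hcon2 hcon2 (by positivity) (by positivity)
      have g2 : ‖w - a‖ * ‖w - a‖ ≤ ‖a‖ * ‖a‖ := mul_le_mul h h hwa0 ha0
      have g3 : 0 < ‖w‖ * ‖w‖ := by positivity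
      nlinarith
    linarith

end Pool.Agent.H36.CL
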